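import Pool.Agent.K1H62.MC.Plan

/-! Piece S_ORTH: orthogonality by truncation of the values (no layers, no exhaustion). -/

set_option autoImplicit false

namespace Pool.Agent.K1H48.MC

open MeasureTheory Filter Topology
open scoped ENNReal ContDiff
open Pool.Agent.K1H62.MC

noncomputable section

lemma pd_min {g : E → ℝ} (hg : ∀ y, 0 ≤ g y) {x : E} (hx : g x = 0) (i : Fin 3) : pd i g x = 0 := by
  have h : IsLocalMin g x := Filter.Eventually.of_forall fun y => by rw [hx]; exact hg y
  unfold pd
  rw [h.fderiv_eq_zero]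
  rfl

lemma pd_congr_nhds {f g : E → ℝ} {x : E} (h : f =ᶠ[𝓝 x] g) (i : Fin 3) : pd i f x = pd i g x := by
  unfold pd
  rw [h.fderiv_eq]

lemma pd_trunc {w : E → ℝ} (hc : Continuous w) {ε : ℝ} (i : Fin 3) (x : E) :
    pd i (fun y => max (w y - ε) 0) x = if ε < w x then pd i w x else 0 := by
  split_ifs with h
  · have h1 : (fun y => max (w y - ε) 0) =ᶠ[𝓝 x] fun y => w y - ε := by
      filter_upwards [hc.continuousAt.eventually (lt_mem_nhds h)] with y hy
      exact max_eq_left (by linarith)
    rw [pd_congr_nhds h1]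
    unfold pd
    rw [fderiv_sub_const]
  · exact pd_min (fun y => le_max_right _ _) (max_eq_right (by linarith)) i

lemma pd_meas (i : Fin 3) (f : E → ℝ) : Measurable (pd i f) := measurable_fderiv_apply_const ℝ f _

lemma int_u (hD : S_DEC) (i : Fin 3) (hM : MeasurableSet MM) : IntegrableOn (fun x => pd i u x ^ 2) MM := by
  obtain ⟨⟨C, hC, -, h, -⟩, -⟩ := hD
  have h1 : Integrable (fun x : E => (1 + ‖x‖) ^ (-(4 : ℝ))) :=
    integrable_one_add_norm (by rw [finrank_euclideanSpace_fin]; norm_num)
  refine Integrable.mono' ((h1.const_mul (C ^ 2)).integrableOn (s := MM)) ((pd_meas i u).pow_const 2).aestronglyMeasurable ?_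
  rw [ae_restrict_iff' hM]
  refine Eventually.of_forall fun x hx => ?_
  have h2 := h x hx i
  have hn : 0 < 1 + ‖x‖ := by positivity
  rw [Real.norm_of_nonneg (sq_nonneg _), ← sq_abs]
  refine (pow_le_pow_left₀ (abs_nonneg _) h2 2).trans (le_of_eq ?_)
  rw [Real.rpow_neg hn.le, div_pow, ← pow_mul, ← Real.rpow_natCast (1 + ‖x‖)]
  norm_num
  rfl

/-- the case of functions `≥ 0` -/
theorem orth_nonneg (hG : S_GEO) (hP : S_POT) (hD : S_DEC) (hO : S_ORTHC) {w : E → ℝ} {C : NNReal}
    (hw : LipschitzWith C w) (h0 : ∀ x, 0 ≤ w x) (hs : ∀ x, s x ≤ 4 → w x = 0)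
    (ht : Tendsto w (cocompact E) (𝓝 0)) (hi : ∀ i, IntegrableOn (fun x => pd i w x ^ 2) MM) :
    Integrable (fun x => ∑ i, pd i u x * pd i w x) (volume.restrict MM) ∧
      ∫ x in MM, ∑ i, pd i u x * pd i w x = 0 := by
  have hsc : Continuous s := hG.2.2.2.1.continuous
  have hM : MeasurableSet MM := (isClosed_le continuous_const hsc).measurableSet
  have hb : Integrable (fun x => ∑ i, (pd i u x ^ 2 + pd i w x ^ 2)) (volume.restrict MM) :=
    integrable_finsetSum _ fun i _ => (int_u hD i hM).add (hi i)
  have hbd : ∀ x, ‖∑ i, pd i u x * pd i w x‖ ≤ ∑ i, (pd i u x ^ 2 + pd i w x ^ 2) := by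
    intro x
    refine (norm_sum_le _ _).trans (Finset.sum_le_sum fun i _ => ?_)
    rw [Real.norm_eq_abs, abs_mul]
    nlinarith [sq_nonneg (|pd i u x| - |pd i w x|), sq_abs (pd i u x), sq_abs (pd i w x),
      abs_nonneg (pd i u x), abs_nonneg (pd i w x)]
  have hmeas : ∀ v : E → ℝ, AEStronglyMeasurable (fun x => ∑ i, pd i u x * pd i v x) (volume.restrict MM) :=
    fun v => (Finset.measurable_sum _ fun i _ => (pd_meas i u).mul (pd_meas i v)).aestronglyMeasurable
  refine ⟨hb.mono' (hmeas w) (Eventually.of_forall hbd), ?_⟩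
  -- truncation
  have hz : ∀ n : ℕ, ∫ x in MM, ∑ i, pd i u x * pd i (fun y => max (w y - 1 / ((n : ℝ) + 1)) 0) x = 0 := by
    intro n
    have hε : (0 : ℝ) < 1 / ((n : ℝ) + 1) := by positivity
    apply hO hG hP
    · exact ⟨_, (hw.sub (LipschitzWith.const (1 / ((n : ℝ) + 1)))).max_const 0⟩
    · have h1 : ∀ᶠ y in cocompact E, w y < 1 / ((n : ℝ) + 1) := ht.eventually (gt_mem_nhds hε)
      obtain ⟨K, hK, hKs⟩ := mem_cocompact.1 h1
      refine HasCompactSupport.of_support_subset_isCompact hK fun y hy => ?_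
      by_contra hyK
      apply hy
      have : w y < 1 / ((n : ℝ) + 1) := hKs hyK
      exact max_eq_right (by linarith)
    · have h1 : tsupport (fun y => max (w y - 1 / ((n : ℝ) + 1)) 0) ⊆ {y | 1 / ((n : ℝ) + 1) ≤ w y} := by
        refine closure_minimal (fun y hy => ?_) (isClosed_le continuous_const hw.continuous)
        by_contra hcon
        apply hy
        have : w y < 1 / ((n : ℝ) + 1) := not_le.1 hcon
        exact max_eq_right (by linarith)
      refine h1.trans fun y hy => ?_
      by_contra hcon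
      have h2 := hs y (not_lt.1 hcon)
      have h3 : 1 / ((n : ℝ) + 1) ≤ w y := hy
      linarith
  have hlim : Tendsto (fun n : ℕ => ∫ x in MM, ∑ i, pd i u x * pd i (fun y => max (w y - 1 / ((n : ℝ) + 1)) 0) x)
      atTop (𝓝 (∫ x in MM, ∑ i, pd i u x * pd i w x)) := by
    refine tendsto_integral_of_dominated_convergence (fun x => ∑ i, (pd i u x ^ 2 + pd i w x ^ 2))
      (fun n => hmeas _) hb (fun n => Eventually.of_forall fun x => ?_) (Eventually.of_forall fun x => ?_)
    · simp only [pd_trunc hw.continuous]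
      by_cases h : 1 / ((n : ℝ) + 1) < w x
      · simp only [h, if_true]
        exact hbd x
      · simp only [h, if_false, mul_zero, Finset.sum_const_zero, norm_zero]
        exact Finset.sum_nonneg fun i _ => add_nonneg (sq_nonneg _) (sq_nonneg _)
    · simp only [pd_trunc hw.continuous]
      rcases (h0 x).eq_or_lt with h | h
      · have h1 : ∀ i, pd i w x = 0 := fun i => pd_min h0 h.symm i
        simp only [h1, ite_self]
        exact tendsto_const_nhds
      · refine tendsto_const_nhds.congr' ?_
        have h1 : ∀ᶠ n : ℕ in atTop, 1 / ((n : ℝ) + 1) < w x :=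
          (tendsto_one_div_add_atTop_nhds_zero_nat (𝕜 := ℝ)).eventually (gt_mem_nhds h)
        filter_upwards [h1] with n hn
        simp only [hn, if_true]
  simp only [hz] at hlim
  exact (tendsto_nhds_unique hlim tendsto_const_nhds)

theorem t_ORTH : S_ORTH := by
  intro hG hP hD hO w ⟨C, hw⟩ hs ht hi
  have hw1 : LipschitzWith C (fun x => max (w x) 0) := hw.max_const 0
  have hw2 : LipschitzWith C (fun x => max (-w x) 0) := hw.neg.max_const 0
  have hpd1 : ∀ i x, pd i (fun x => max (w x) 0) x = if 0 < w x then pd i w x else 0 := by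
    intro i x
    have h := pd_trunc hw.continuous (ε := 0) i x
    simpa using h
  have hpd2 : ∀ i x, pd i (fun x => max (-w x) 0) x = if w x < 0 then -pd i w x else 0 := by
    intro i x
    have h := pd_trunc (w := fun y => -w y) hw.continuous.neg (ε := 0) i x
    have h2 : pd i (fun y => -w y) x = -pd i w x := by
      unfold pd
      rw [fderiv_fun_neg]
      rfl
    simp only [sub_zero] at h
    rw [h, h2]
    simp
  have hsq1 : ∀ i x, pd i (fun x => max (w x) 0) x ^ 2 ≤ pd i w x ^ 2 := by
    intro i x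
    rw [hpd1]
    split_ifs
    · exact le_rfl
    · rw [zero_pow two_ne_zero]; exact sq_nonneg _
  have hsq2 : ∀ i x, pd i (fun x => max (-w x) 0) x ^ 2 ≤ pd i w x ^ 2 := by
    intro i x
    rw [hpd2]
    split_ifs
    · rw [neg_sq]
    · rw [zero_pow two_ne_zero]; exact sq_nonneg _
  have ht1 : Tendsto (fun x => max (w x) 0) (cocompact E) (𝓝 0) := by
    have := ht.max (tendsto_const_nhds (x := (0 : ℝ)) (f := cocompact E))
    rwa [max_self] at this
  have ht2 : Tendsto (fun x => max (-w x) 0) (cocompact E) (𝓝 0) := by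
    have := ht.neg.max (tendsto_const_nhds (x := (0 : ℝ)) (f := cocompact E))
    rwa [neg_zero, max_self] at this
  obtain ⟨i1, o1⟩ := orth_nonneg hG hP hD hO hw1 (fun x => le_max_right _ _)
    (fun x hx => by rw [hs x hx, max_self]) ht1
    (fun i => (hi i).mono' ((pd_meas i _).pow_const 2).aestronglyMeasurable
      (Eventually.of_forall fun x => by rw [Real.norm_of_nonneg (sq_nonneg _)]; exact hsq1 i x))
  obtain ⟨i2, o2⟩ := orth_nonneg hG hP hD hO hw2 (fun x => le_max_right _ _)
    (fun x hx => by rw [hs x hx, neg_zero, max_self]) ht2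
    (fun i => (hi i).mono' ((pd_meas i _).pow_const 2).aestronglyMeasurable
      (Eventually.of_forall fun x => by rw [Real.norm_of_nonneg (sq_nonneg _)]; exact hsq2 i x))
  have hae : ∀ᵐ x ∂(volume.restrict MM), ∑ i, pd i u x * pd i w x =
      ∑ i, pd i u x * pd i (fun x => max (w x) 0) x - ∑ i, pd i u x * pd i (fun x => max (-w x) 0) x := by
    filter_upwards [ae_restrict_of_ae hw1.ae_differentiableAt, ae_restrict_of_ae hw2.ae_differentiableAt] with x h1 h2
    rw [← Finset.sum_sub_distrib]
    refine Finset.sum_congr rfl fun i _ => ?_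
    have e : pd i w x = pd i (fun x => max (w x) 0) x - pd i (fun x => max (-w x) 0) x := by
      have e1 : w = fun x => max (w x) 0 - max (-w x) 0 := by
        funext y
        rcases le_total (w y) 0 with h | h
        · rw [max_eq_right h, max_eq_left (by linarith)]; ring
        · rw [max_eq_left h, max_eq_right (by linarith)]; ring
      conv_lhs => rw [e1]
      unfold pd
      rw [fderiv_fun_sub h1 h2]
      rfl
    rw [e]
    ring
  rw [integral_congr_ae hae, integral_sub i1 i2, o1, o2, sub_zero]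

end

end Pool.Agent.K1H48.MC
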